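import Pool.Agent.Lib.MP_a3b162_co.CS.Final

/-!
The f-vectors of centrally symmetric simplicial 4-polytopes with many vertices: the exact maximum of
the number of edges, and all the numbers of edges.
-/

set_option autoImplicit false

namespace Pool.Agent.Results.MP_a3b162_co.ExactMaxDimFour

/-- `P` is a `d`-polytope: the convex hull of finitely many points of `ℝ^d`, with affine hull all
of `ℝ^d` -/
def IsPolytope {d : ℕ} (P : Set (Fin d → ℝ)) : Prop :=
  (∃ S : Set (Fin d → ℝ), S.Finite ∧ P = convexHull ℝ S) ∧ affineSpan ℝ P = ⊤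

/-- `P` is centrally symmetric: `P - c = -(P - c)` for some point `c` -/
def IsCS {d : ℕ} (P : Set (Fin d → ℝ)) : Prop :=
  ∃ c : Fin d → ℝ, ∀ x, c + x ∈ P → c - x ∈ P

/-- the number `f_i(P)` of `i`-dimensional faces of `P` (the faces of a polytope are its exposed
subsets) -/
noncomputable def f {d : ℕ} (i : ℕ) (P : Set (Fin d → ℝ)) : ℕ :=
  {F : Set (Fin d → ℝ) | F.Nonempty ∧ IsExposed ℝ P F ∧
    Module.finrank ℝ (vectorSpan ℝ F) = i}.ncard

/-- `P` is simplicial: every proper face is a simplex (the convex hull of an affinely independent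
finite set) -/
def IsSimplicial {d : ℕ} (P : Set (Fin d → ℝ)) : Prop :=
  ∀ F : Set (Fin d → ℝ), IsExposed ℝ P F → F ≠ P →
    ∃ s : Finset (Fin d → ℝ), AffineIndependent ℝ ((↑) : s → (Fin d → ℝ)) ∧
      F = convexHull ℝ (s : Set (Fin d → ℝ))

/-- For all large `n`: every centrally symmetric 4-polytope with `2n` vertices has at most
`n^2 + n - 4 + 2 ⌊n^2/4⌋` edges, and every even number from Stanley's lower bound `8(n-1)` to this
maximum is the number of edges of a centrally symmetric simplicial 4-polytope with `2n` vertices. -/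
theorem result : ∃ N0 : ℕ, ∀ n : ℕ, N0 ≤ n →
    (∀ P : Set (Fin 4 → ℝ), IsPolytope P → IsCS P → f 0 P = 2 * n →
      f 1 P ≤ n ^ 2 + n - 4 + 2 * (n ^ 2 / 4)) ∧
    (∀ m : ℕ, 8 * (n - 1) ≤ 2 * m → 2 * m ≤ n ^ 2 + n - 4 + 2 * (n ^ 2 / 4) →
      ∃ P : Set (Fin 4 → ℝ), IsPolytope P ∧ IsCS P ∧ IsSimplicial P ∧ f 0 P = 2 * n ∧
        f 1 P = 2 * m) :=
  Pool.Agent.Lib.MP_a3b162_co.CS.exact_max

end Pool.Agent.Results.MP_a3b162_co.ExactMaxDimFour
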