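import Pool.Agent.Lib.MP_a3b162_co.Upper

/-!
An upper bound for the number of `(k-1)`-faces of centrally symmetric simplicial `2k`-polytopes.
-/

set_option autoImplicit false

namespace Pool.Agent.Results.MP_a3b162_co.HalfDimFaces

/-- `P` is a `d`-polytope: the convex hull of finitely many points of `ℝ^d`, with affine hull all
of `ℝ^d` -/
def IsPolytope {d : ℕ} (P : Set (Fin d → ℝ)) : Prop :=
  (∃ S : Set (Fin d → ℝ), S.Finite ∧ P = convexHull ℝ S) ∧ affineSpan ℝ P = ⊤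

/-- `P` is centrally symmetric: `P - c = -(P - c)` for some point `c` -/
def IsCS {d : ℕ} (P : Set (Fin d → ℝ)) : Prop :=
  ∃ c : Fin d → ℝ, ∀ x, c + x ∈ P → c - x ∈ P

/-- the number `f_i(P)` of `i`-dimensional faces of `P` (the faces of a polytope are its exposed
subsets) -/
noncomputable def f {d : ℕ} (i : ℕ) (P : Set (Fin d → ℝ)) : ℕ :=
  {F : Set (Fin d → ℝ) | F.Nonempty ∧ IsExposed ℝ P F ∧
    Module.finrank ℝ (vectorSpan ℝ F) = i}.ncard

/-- `P` is simplicial: every proper face is a simplex (the convex hull of an affinely independent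
finite set) -/
def IsSimplicial {d : ℕ} (P : Set (Fin d → ℝ)) : Prop :=
  ∀ F : Set (Fin d → ℝ), IsExposed ℝ P F → F ≠ P →
    ∃ s : Finset (Fin d → ℝ), AffineIndependent ℝ ((↑) : s → (Fin d → ℝ)) ∧
      F = convexHull ℝ (s : Set (Fin d → ℝ))

/-- For `k ≥ 3` a simplicial centrally symmetric `2k`-polytope with `N` vertices has at most
`(1 - (1 - 1/k) / 2^(k-1) + o(1)) C(N,k)` faces of dimension `k - 1`. -/
theorem result (k : ℕ) (hk : 3 ≤ k) (ε : ℝ) (hε : 0 < ε) : ∃ N : ℕ,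
    ∀ P : Set (Fin (2 * k) → ℝ), IsPolytope P → IsCS P → IsSimplicial P → N ≤ f 0 P →
    (f (k - 1) P : ℝ) ≤ (1 - (1 - 1 / (k : ℝ)) / 2 ^ (k - 1) + ε) * ((f 0 P).choose k : ℝ) :=
  Pool.Agent.Lib.MP_a3b162_co.upper_simplicial (by omega) ε hε

end Pool.Agent.Results.MP_a3b162_co.HalfDimFaces
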