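import Pool.Agent.Lib.MP_a3b162_co.ES.Final

/-!
Centrally symmetric polytopes with many edges, in every dimension.
-/

set_option autoImplicit false

namespace Pool.Agent.Results.MP_a3b162_co.ManyEdges

/-- `P` is a `d`-polytope: the convex hull of finitely many points of `ℝ^d`, with affine hull all
of `ℝ^d` -/
def IsPolytope {d : ℕ} (P : Set (Fin d → ℝ)) : Prop :=
  (∃ S : Set (Fin d → ℝ), S.Finite ∧ P = convexHull ℝ S) ∧ affineSpan ℝ P = ⊤

/-- `P` is centrally symmetric: `P - c = -(P - c)` for some point `c` -/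
def IsCS {d : ℕ} (P : Set (Fin d → ℝ)) : Prop :=
  ∃ c : Fin d → ℝ, ∀ x, c + x ∈ P → c - x ∈ P

/-- the number `f_i(P)` of `i`-dimensional faces of `P` (the faces of a polytope are its exposed
subsets) -/
noncomputable def f {d : ℕ} (i : ℕ) (P : Set (Fin d → ℝ)) : ℕ :=
  {F : Set (Fin d → ℝ) | F.Nonempty ∧ IsExposed ℝ P F ∧
    Module.finrank ℝ (vectorSpan ℝ F) = i}.ncard

/-- `P` is simplicial: every proper face is a simplex (the convex hull of an affinely independent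
finite set) -/
def IsSimplicial {d : ℕ} (P : Set (Fin d → ℝ)) : Prop :=
  ∀ F : Set (Fin d → ℝ), IsExposed ℝ P F → F ≠ P →
    ∃ s : Finset (Fin d → ℝ), AffineIndependent ℝ ((↑) : s → (Fin d → ℝ)) ∧
      F = convexHull ℝ (s : Set (Fin d → ℝ))

/-- For all `n ≥ d ≥ 4`, every even number `2m` from Stanley's lower bound `2d(n-1)` to
`(1 - 2^{-(d-2)}) 2n^2 - n - 2^{d-5}` is the number of edges of a centrally symmetric simplicial
`d`-polytope with `2n` vertices. -/
theorem result (d n m : ℕ) (hd : 4 ≤ d) (hn : d ≤ n) (h1 : 2 * d * (n - 1) ≤ 2 * m)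
    (h2 : 2 * (m : ℝ) ≤ (1 - 1 / 2 ^ (d - 2)) * (2 * (n : ℝ) ^ 2) - n - 2 ^ d / 32) :
    ∃ P : Set (Fin d → ℝ), IsPolytope P ∧ IsCS P ∧ IsSimplicial P ∧ f 0 P = 2 * n ∧
      f 1 P = 2 * m :=
  Pool.Agent.Lib.MP_a3b162_co.ES.many_edges hd hn (by rw [mul_assoc] at h1; omega) h2

end Pool.Agent.Results.MP_a3b162_co.ManyEdges
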